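import Pool.Agent.Lib.MP_a55e6f_al.H1.LA1
import Pool.Agent.Lib.MP_a55e6f_al.H14.PBW
import Pool.Agent.Lib.MP_a55e6f_al.H14.Span
import Pool.Agent.Lib.MP_a55e6f_al.H23.Final
import Pool.Agent.Lib.MP_a55e6f_al.H23.SASB
import Pool.Agent.Lib.MP_a55e6f_al.H23.Struct
import Pool.Agent.Lib.MP_a55e6f_al.H50.WA
import Pool.Agent.Lib.MP_a55e6f_al.H50.LLAD
import Pool.Agent.Lib.MP_a55e6f_al.H50.Double
import Pool.Agent.Lib.MP_a55e6f_al.H50.LF
import Pool.Agent.Lib.MP_a55e6f_al.H52.Rep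
import Pool.Agent.Lib.MP_a55e6f_al.H52.S4
import Pool.Agent.Lib.MP_a55e6f_al.H63.P12
import Pool.Agent.Lib.MP_a55e6f_al.H66.Inner
import Pool.Agent.Lib.MP_a55e6f_al.H66.P3l
import Pool.Agent.Lib.MP_a55e6f_al.H75.LA2
import Pool.Agent.Lib.MP_a55e6f_al.H75.Zorn
import Pool.Agent.Lib.MP_a55e6f_al.H76.S3
import Pool.Agent.Lib.MP_a55e6f_al.H86.UI
import Pool.Agent.Lib.MP_a55e6f_al.H86.P3r

/-!
# MP_a55e6f_al: assembly of all modules
-/

set_option autoImplicit false

namespace Pool.Agent.A55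

/-- In characteristic zero, if `U(L)` is a free associative algebra then `L` is a free Lie
algebra. -/
theorem main : FinalStatement := by
  have hR := H52.rep
  have hSP := H14.span
  have hPB := H14.pbw hR hSP
  have hTop := H14.top hR hSP
  have hP1 := H63.p1 hPB hSP
  have hP2 := H63.p2 hP1
  have hP0 := H63.p0 hPB hSP
  have hP3l := H66.P3l.p3l hPB hSP
  have hP3r := H86.p3r hPB hSP
  have hLA1 := H1.la1 hR hTop
  have hLA := H1.la hLA1 H75.la2
  have hS3 := H76.s3 hP3r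
  have hS4 := H52.s4 hP3l H50.wa
  have hIN := H66.inner hS3 hS4 H50.ll H50.ad hP1
  have hST := H23.struct_ hLA hIN H50.lf hP0 hP2 H50.double H50.theta
  have hZO := H75.zorn (H23.sa hST) (H23.sb hST) hP2
  exact H23.final hZO H86.freeLie (H86.ueaInj hP1)

end Pool.Agent.A55
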